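import Mathlib

/-! # A spectral gap on a finite Schreier graph gives logarithmic diameter -/

set_option autoImplicit false

namespace Pool.Agent.Helper38.T5

open Equiv Finset

section

variable {X : Type} [Fintype X] [DecidableEq X] {k : ℕ}

/-- The permutation of a letter. -/
def letter (z : Fin k → Perm X) (p : Fin k × Bool) : Perm X := if p.2 then z p.1 else (z p.1)⁻¹

/-- The ball of radius `j` around `a`. -/
noncomputable def ball (z : Fin k → Perm X) (a : X) (j : ℕ) : Finset X := by
  classical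
  exact univ.filter fun b => ∃ l : List (Fin k × Bool), l.length ≤ j ∧
    (l.map (letter z)).prod a = b

theorem mem_ball (z : Fin k → Perm X) (a : X) (j : ℕ) (b : X) :
    b ∈ ball z a j ↔ ∃ l : List (Fin k × Bool), l.length ≤ j ∧
      (l.map (letter z)).prod a = b := by
  classical
  simp [ball]

theorem sum_shift (S : Finset X) (c : ℝ) (hc : (S.card : ℝ) = c * Fintype.card X) (g : Perm X) :
    ∑ a, ((if a ∈ S then (1 : ℝ) else 0) - c) * ((if g a ∈ S then (1 : ℝ) else 0) - c) =
      ((S.filter fun a => g a ∈ S).card : ℝ) - c * S.card := by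
  have h1 : ∑ a : X, (if a ∈ S then (1 : ℝ) else 0) = S.card := by simp
  have h2 : ∑ a : X, (if g a ∈ S then (1 : ℝ) else 0) = S.card := by
    rw [← h1]
    exact Equiv.sum_comp g (fun a => if a ∈ S then (1 : ℝ) else 0)
  have h3 : ∑ a : X, (if a ∈ S then (1 : ℝ) else 0) * (if g a ∈ S then (1 : ℝ) else 0) =
      ((S.filter fun a => g a ∈ S).card : ℝ) := by
    rw [card_filter, Nat.cast_sum]
    rw [← Finset.sum_filter_add_sum_filter_not univ (fun a => a ∈ S)]
    have : ∑ a ∈ univ.filter (fun a => ¬ a ∈ S),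
        (if a ∈ S then (1 : ℝ) else 0) * (if g a ∈ S then (1 : ℝ) else 0) = 0 := by
      refine sum_eq_zero ?_
      intro a ha
      rw [mem_filter] at ha
      rw [if_neg ha.2, zero_mul]
    rw [this, add_zero]
    have e : univ.filter (fun a => a ∈ S) = S := by ext; simp
    rw [e]
    refine sum_congr rfl ?_
    intro a ha
    rw [if_pos ha, one_mul]
    split_ifs <;> simp
  have h4 : ∀ a : X, ((if a ∈ S then (1 : ℝ) else 0) - c) * ((if g a ∈ S then (1 : ℝ) else 0) - c)
      = (if a ∈ S then (1 : ℝ) else 0) * (if g a ∈ S then (1 : ℝ) else 0)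
        - c * (if a ∈ S then (1 : ℝ) else 0) - c * (if g a ∈ S then (1 : ℝ) else 0) + c * c := by
    intro a; ring
  rw [sum_congr rfl (fun a _ => h4 a), sum_add_distrib, sum_sub_distrib, sum_sub_distrib,
    ← mul_sum, ← mul_sum, h1, h2, h3]
  rw [sum_const, card_univ, nsmul_eq_mul]
  have : (Fintype.card X : ℝ) * (c * c) = c * S.card := by rw [hc]; ring
  rw [this]; ring

theorem expand (hk : 0 < k) (z : Fin k → Perm X) (ε : ℝ) (hε : 0 < ε)
    (hgap : ∀ φ : X → ℝ, ∑ a, φ a = 0 →
      ∑ a, φ a * ((2 * (k : ℝ))⁻¹ * ∑ i, (φ (z i a) + φ ((z i)⁻¹ a))) ≤ (1 - ε) * ∑ a, φ a ^ 2)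
    (S T : Finset X) (hS : 2 * S.card ≤ Fintype.card X) (hST : S ⊆ T)
    (hT : ∀ p : Fin k × Bool, ∀ x ∈ S, letter z p x ∈ T) :
    (1 + ε / 2) * S.card ≤ T.card := by
  rcases Nat.eq_zero_or_pos (Fintype.card X) with h0 | h0
  · have : S.card = 0 := by omega
    rw [this]; simp
  have hN : (0 : ℝ) < Fintype.card X := by exact_mod_cast h0
  set N : ℝ := (Fintype.card X : ℝ) with hNdef
  set c : ℝ := S.card / N with hcdef
  have hc : (S.card : ℝ) = c * N := by rw [hcdef]; field_simp
  set φ : X → ℝ := fun a => (if a ∈ S then (1 : ℝ) else 0) - c with hφ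
  have hφ0 : ∑ a, φ a = 0 := by
    rw [hφ, sum_sub_distrib, sum_const, card_univ, nsmul_eq_mul, ← hNdef]
    simp only [sum_ite_mem, univ_inter, sum_const, nsmul_eq_mul, mul_one]
    rw [hc]; ring
  have h1 := hgap φ hφ0
  have h2 : ∑ a, φ a ^ 2 = S.card - c * S.card := by
    have h := sum_shift S c (by rw [hc]) (1 : Perm X)
    have e : (S.filter fun a => (1 : Perm X) a ∈ S) = S := by
      refine filter_true_of_mem ?_
      intro a ha
      exact ha
    rw [e] at h
    rw [← h]
    refine sum_congr rfl ?_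
    intro a _
    rw [hφ, sq]
    rfl
  -- every letter
  have h3 : ∀ p : Fin k × Bool, (S.card : ℝ) - (T \ S).card - c * S.card ≤
      ∑ a, φ a * φ (letter z p a) := by
    intro p
    have e1 := sum_shift S c (by rw [hc]) (letter z p)
    have e2 : ∑ a, φ a * φ (letter z p a) =
        ((S.filter fun a => letter z p a ∈ S).card : ℝ) - c * S.card := by
      rw [← e1]
    rw [e2]
    have e3 : S.card ≤ (S.filter fun a => letter z p a ∈ S).card + (T \ S).card := by
      rw [← card_filter_add_card_filter_not (s := S) (fun a => letter z p a ∈ S)]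
      refine Nat.add_le_add_left ?_ _
      refine card_le_card_of_injOn (fun a => letter z p a) ?_ ?_
      · intro a ha
        simp only [coe_filter, Set.mem_ofPred_eq] at ha
        simp only [coe_sdiff, Set.mem_sdiff, mem_coe]
        exact ⟨hT p a ha.1, ha.2⟩
      · intro a _ b _ hab
        exact (letter z p).injective hab
    have e4 : (S.card : ℝ) ≤ (S.filter fun a => letter z p a ∈ S).card + (T \ S).card := by
      exact_mod_cast e3
    linarith
  have hk' : (0 : ℝ) < k := by exact_mod_cast hk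
  have h4 : (S.card : ℝ) - (T \ S).card - c * S.card ≤
      ∑ a, φ a * ((2 * (k : ℝ))⁻¹ * ∑ i, (φ (z i a) + φ ((z i)⁻¹ a))) := by
    have e1 : ∑ a, φ a * ((2 * (k : ℝ))⁻¹ * ∑ i, (φ (z i a) + φ ((z i)⁻¹ a))) =
        (2 * (k : ℝ))⁻¹ * ∑ i, (∑ a, φ a * φ (letter z (i, true) a) +
          ∑ a, φ a * φ (letter z (i, false) a)) := by
      rw [mul_sum]
      have : ∀ i : Fin k, (2 * (k : ℝ))⁻¹ * (∑ a, φ a * φ (letter z (i, true) a) +
          ∑ a, φ a * φ (letter z (i, false) a)) =
          ∑ a, (2 * (k : ℝ))⁻¹ * (φ a * (φ (z i a) + φ ((z i)⁻¹ a))) := by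
        intro i
        rw [← sum_add_distrib, mul_sum]
        refine sum_congr rfl ?_
        intro a _
        simp only [letter, if_true]
        simp only [Bool.false_eq_true, if_false]
        ring
      rw [sum_congr rfl (fun i _ => this i), sum_comm]
      refine sum_congr rfl ?_
      intro a _
      rw [mul_left_comm, mul_sum, mul_sum]
    rw [e1]
    have e2 : ∑ i : Fin k, (2 * ((S.card : ℝ) - (T \ S).card - c * S.card)) ≤
        ∑ i : Fin k, (∑ a, φ a * φ (letter z (i, true) a) +
          ∑ a, φ a * φ (letter z (i, false) a)) := by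
      refine sum_le_sum ?_
      intro i _
      have := h3 (i, true)
      have := h3 (i, false)
      linarith
    rw [sum_const, card_univ, Fintype.card_fin, nsmul_eq_mul] at e2
    rw [le_inv_mul_iff₀ (by positivity)]
    linarith
  have h5 : (S.card : ℝ) - (T \ S).card - c * S.card ≤ (1 - ε) * (S.card - c * S.card) := by
    rw [← h2]
    exact h4.trans h1
  have hc2 : c ≤ 1 / 2 := by
    rw [hcdef, div_le_iff₀ hN]
    have : (2 : ℝ) * S.card ≤ N := by rw [hNdef]; exact_mod_cast hS
    linarith
  have hs0 : (0 : ℝ) ≤ S.card := Nat.cast_nonneg _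
  have h6 : ε * (S.card * (1 / 2)) ≤ (T \ S).card := by
    have e1 : ε * (S.card * (1 - c)) ≤ (T \ S).card := by nlinarith
    have e2 : ε * (S.card * (1 / 2)) ≤ ε * (S.card * (1 - c)) := by
      refine mul_le_mul_of_nonneg_left ?_ hε.le
      refine mul_le_mul_of_nonneg_left ?_ hs0
      linarith
    linarith
  have h7 : ((T \ S).card : ℝ) + S.card = T.card := by
    exact_mod_cast card_sdiff_add_card_eq_card hST
  nlinarith

theorem ball_big (hk : 0 < k) (z : Fin k → Perm X) (ε : ℝ) (hε : 0 < ε)
    (hgap : ∀ φ : X → ℝ, ∑ a, φ a = 0 →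
      ∑ a, φ a * ((2 * (k : ℝ))⁻¹ * ∑ i, (φ (z i a) + φ ((z i)⁻¹ a))) ≤ (1 - ε) * ∑ a, φ a ^ 2)
    (a : X) (j : ℕ) :
    (1 + ε / 2) ^ j ≤ (ball z a j).card ∨ Fintype.card X < 2 * (ball z a j).card := by
  induction j with
  | zero =>
    left
    rw [pow_zero]
    have : 0 < (ball z a 0).card := by
      rw [card_pos]
      exact ⟨a, (mem_ball z a 0 a).mpr ⟨[], by simp⟩⟩
    exact_mod_cast this
  | succ j ih =>
    have hsub : ball z a j ⊆ ball z a (j + 1) := by
      intro b hb
      rw [mem_ball] at hb ⊢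
      obtain ⟨l, hl, h⟩ := hb
      exact ⟨l, by omega, h⟩
    rcases ih with ih | ih
    · by_cases hS : 2 * (ball z a j).card ≤ Fintype.card X
      · left
        have h1 := expand hk z ε hε hgap (ball z a j) (ball z a (j + 1)) hS hsub (by
          intro p x hx
          rw [mem_ball] at hx ⊢
          obtain ⟨l, hl, h⟩ := hx
          refine ⟨p :: l, by simp; omega, ?_⟩
          rw [List.map_cons, List.prod_cons, Perm.mul_apply, h])
        rw [pow_succ, mul_comm]
        refine le_trans ?_ h1
        refine mul_le_mul_of_nonneg_left ih ?_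
        positivity
      · right
        have := card_le_card hsub
        omega
    · right
      have := card_le_card hsub
      omega

theorem inv_word (z : Fin k → Perm X) (l : List (Fin k × Bool)) :
    ((l.reverse.map fun p => (p.1, !p.2)).map (letter z)).prod =
      ((l.map (letter z)).prod)⁻¹ := by
  rw [List.prod_inv_reverse]
  congr 1
  rw [List.map_map, List.map_map, ← List.map_reverse]
  refine List.map_congr_left ?_
  intro p _
  rcases p with ⟨i, b⟩
  cases b <;> simp [letter]

/-- Packet T5-P4. -/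
theorem P4_reach (hk : 0 < k)
    (z : Fin k → Perm X) (ε : ℝ) (hε : 0 < ε)
    (hgap : ∀ φ : X → ℝ, ∑ a, φ a = 0 →
      ∑ a, φ a * ((2 * (k : ℝ))⁻¹ * ∑ i, (φ (z i a) + φ ((z i)⁻¹ a))) ≤ (1 - ε) * ∑ a, φ a ^ 2)
    (t : ℕ) (ht : (Fintype.card X : ℝ) < 2 * (1 + ε / 2) ^ t) (a b : X) :
    ∃ l : List (Fin k × Bool), l.length ≤ 2 * t ∧
      (l.map fun p => if p.2 then z p.1 else (z p.1)⁻¹).prod a = b := by
  have hbig : ∀ a : X, Fintype.card X < 2 * (ball z a t).card := by
    intro a
    rcases ball_big hk z ε hε hgap a t with h | h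
    · have : (Fintype.card X : ℝ) < 2 * (ball z a t).card := by linarith
      exact_mod_cast this
    · exact h
  have hinter : (ball z a t ∩ ball z b t).Nonempty := by
    rw [← card_pos]
    have h1 := card_union_add_card_inter (ball z a t) (ball z b t)
    have h2 : (ball z a t ∪ ball z b t).card ≤ Fintype.card X := card_le_univ _
    have h3 := hbig a
    have h4 := hbig b
    omega
  obtain ⟨c, hc⟩ := hinter
  rw [mem_inter, mem_ball, mem_ball] at hc
  obtain ⟨⟨l, hl, h1⟩, ⟨l', hl', h2⟩⟩ := hc
  refine ⟨(l'.reverse.map fun p => (p.1, !p.2)) ++ l, ?_, ?_⟩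
  · simp only [List.length_append, List.length_map, List.length_reverse]
    omega
  · change (List.map (letter z) ((l'.reverse.map fun p => (p.1, !p.2)) ++ l)).prod a = b
    rw [List.map_append, List.prod_append, inv_word, Perm.mul_apply, h1, ← h2]
    simp

end

end Pool.Agent.Helper38.T5
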