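import Mathlib

/-! # Sorting an even permutation by cycles of a fixed odd length -/

set_option autoImplicit false

namespace Pool.Agent.Helper38.T5

open Equiv Finset

/-- Interleaved list `π a₁, a₁, π a₂, a₂, ...`. -/
def inter {n : ℕ} (π : Perm (Fin n)) (as : List (Fin n)) : List (Fin n) :=
  as.flatMap fun a => [π a, a]

theorem mem_inter_iff {n : ℕ} (π : Perm (Fin n)) (as : List (Fin n)) (x : Fin n) :
    x ∈ inter π as ↔ ∃ a ∈ as, x = π a ∨ x = a := by
  simp [inter, List.mem_flatMap]

theorem length_inter {n : ℕ} (π : Perm (Fin n)) (as : List (Fin n)) :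
    (inter π as).length = 2 * as.length := by
  induction as with
  | nil => simp [inter]
  | cons a as ih =>
    have : inter π (a :: as) = π a :: a :: inter π as := by simp [inter]
    rw [this, List.length_cons, List.length_cons, ih, List.length_cons]
    ring

theorem exists_inter {n : ℕ} (π : Perm (Fin n)) (i : ℕ) :
    3 * i < π.support.card + 3 → ∃ as : List (Fin n), as.length = i ∧
      (inter π as).Nodup ∧ ∀ x ∈ as, x ∈ π.support := by
  induction i with
  | zero => intro _; exact ⟨[], rfl, by simp [inter], by simp⟩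
  | succ i ih =>
    intro h
    obtain ⟨as, hl, hnd, hs⟩ := ih (by omega)
    -- blocked points
    set B : Finset (Fin n) := (as ++ as.map π ++ as.map (π⁻¹ : Perm (Fin n))).toFinset with hB
    have hBc : B.card ≤ 3 * i := by
      refine (List.toFinset_card_le _).trans ?_
      simp only [List.length_append, List.length_map]
      omega
    obtain ⟨a, ha, haB⟩ : ∃ a ∈ π.support, a ∉ B := by
      by_contra hc
      push Not at hc
      have := card_le_card (show π.support ⊆ B from fun a ha => hc a ha)
      omega
    rw [hB, List.mem_toFinset, List.mem_append, List.mem_append, List.mem_map, List.mem_map] at haB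
    push Not at haB
    obtain ⟨⟨h1, h2⟩, h3⟩ := haB
    refine ⟨a :: as, by simp [hl], ?_, ?_⟩
    · have e : inter π (a :: as) = π a :: a :: inter π as := by simp [inter]
      rw [e, List.nodup_cons, List.nodup_cons, List.mem_cons, mem_inter_iff, mem_inter_iff]
      refine ⟨?_, ?_, hnd⟩
      · rintro (h4 | ⟨b, hb, h4 | h4⟩)
        · rw [Perm.mem_support] at ha
          exact ha h4
        · exact h1 (π.injective h4 ▸ hb)
        · apply h3 b hb
          rw [← h4]
          simp
      · rintro ⟨b, hb, h4 | h4⟩
        · exact h2 b hb h4.symm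
        · exact h1 (h4 ▸ hb)
    · intro x hx
      rw [List.mem_cons] at hx
      rcases hx with rfl | hx
      · exact ha
      · exact hs x hx

theorem formPerm_next {n : ℕ} (pre post : List (Fin n)) (x y : Fin n)
    (h : (pre ++ x :: y :: post).Nodup) :
    List.formPerm (pre ++ x :: y :: post) x = y := by
  have h1 := List.formPerm_apply_lt_getElem (pre ++ x :: y :: post) h pre.length (by simp)
  simpa using h1

/-- Big step. -/
theorem big_step {n t : ℕ} (ht : 1 ≤ t) (π : Perm (Fin n)) (hs : 3 * t + 1 ≤ π.support.card) :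
    ∃ c : Perm (Fin n), c.IsCycle ∧ c.support.card = 2 * t + 1 ∧
      (c * π).support.card + t ≤ π.support.card := by
  obtain ⟨as, hl, hnd, hsup⟩ := exists_inter π t (by omega)
  have hlen := length_inter π as
  have hsup2 : ∀ x ∈ inter π as, x ∈ π.support := by
    intro x hx
    rw [mem_inter_iff] at hx
    obtain ⟨a, ha, rfl | rfl⟩ := hx
    · exact Perm.apply_mem_support.mpr (hsup a ha)
    · exact hsup _ ha
  obtain ⟨z, hz, hz'⟩ : ∃ z ∈ π.support, z ∉ (inter π as).toFinset := by
    by_contra hc
    push Not at hc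
    have h1 := card_le_card (show π.support ⊆ (inter π as).toFinset from fun a ha => hc a ha)
    have h2 := List.toFinset_card_le (inter π as)
    omega
  rw [List.mem_toFinset] at hz'
  set L : List (Fin n) := inter π as ++ [z] with hL
  have hLnd : L.Nodup := by
    rw [hL, List.nodup_append]
    refine ⟨hnd, by simp, ?_⟩
    intro a ha b hb
    rw [List.mem_singleton] at hb
    rw [hb]
    intro e
    exact hz' (e ▸ ha)
  have hLlen : L.length = 2 * t + 1 := by
    rw [hL, List.length_append, hlen, hl]; simp
  have hLsup : ∀ x ∈ L, x ∈ π.support := by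
    intro x hx
    rw [hL, List.mem_append, List.mem_singleton] at hx
    rcases hx with hx | rfl
    · exact hsup2 x hx
    · exact hz
  have hsuppc : (List.formPerm L).support = L.toFinset := by
    refine List.support_formPerm_of_nodup L hLnd ?_
    intro x e
    rw [e] at hLlen
    simp at hLlen
    omega
  refine ⟨List.formPerm L, List.isCycle_formPerm hLnd (by omega), ?_, ?_⟩
  · rw [hsuppc, List.toFinset_card_of_nodup hLnd, hLlen]
  · have hanodup : as.Nodup := by
      have : as.Sublist (inter π as) := by
        clear hlen hsup2 hz' hLnd hLlen hLsup hsuppc hnd hl hsup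
        induction as with
        | nil => simp [inter]
        | cons a as ih =>
          have e : inter π (a :: as) = π a :: a :: inter π as := by simp [inter]
          rw [e]
          exact (List.Sublist.cons_cons a (ih rfl)).cons _
      exact this.nodup hnd
    have hfix : ∀ a ∈ as, (List.formPerm L * π) a = a := by
      intro a ha
      obtain ⟨as1, as2, rfl⟩ := List.append_of_mem ha
      have e : L = inter π as1 ++ π a :: a :: (inter π as2 ++ [z]) := by
        rw [hL]; simp [inter]
      rw [Perm.mul_apply]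
      rw [e] at hLnd ⊢
      exact formPerm_next _ _ _ _ hLnd
    have hsub : (List.formPerm L * π).support ⊆ π.support \ as.toFinset := by
      intro b hb
      rw [mem_sdiff, List.mem_toFinset]
      rw [Perm.mem_support] at hb
      constructor
      · by_contra hb'
        apply hb
        have h1 : π b = b := Perm.notMem_support.mp hb'
        rw [Perm.mul_apply, h1]
        have h2 : b ∉ (List.formPerm L).support := by
          rw [hsuppc, List.mem_toFinset]
          intro h3
          exact hb' (hLsup b h3)
        exact Perm.notMem_support.mp h2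
      · intro h
        exact hb (hfix b h)
    have h1 := card_le_card hsub
    have h2 : as.toFinset ⊆ π.support := by
      intro a ha
      exact hsup a (List.mem_toFinset.mp ha)
    rw [card_sdiff_of_subset h2, List.toFinset_card_of_nodup hanodup, hl] at h1
    omega

theorem exists_cycle {n t : ℕ} (ht : 1 ≤ t) (hn : 2 * t + 1 ≤ n) (b z a : Fin n) (h1 : b ≠ z)
    (h2 : b ≠ a) (h3 : z ≠ a) : ∃ σ : Perm (Fin n), σ.IsCycle ∧ σ.support.card = 2 * t + 1 ∧
      σ b = z ∧ σ z = a := by
  have hc : ({b, z, a} : Finset (Fin n)).card = 3 := by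
    rw [card_insert_of_notMem (by simp [h1, h2]), card_insert_of_notMem (by simp [h3]),
      card_singleton]
  have hcc : (({b, z, a} : Finset (Fin n))ᶜ).card = n - 3 := by
    rw [card_compl, hc, Fintype.card_fin]
  obtain ⟨U, hU, hUc⟩ := exists_subset_card_eq (s := ({b, z, a} : Finset (Fin n))ᶜ)
    (n := 2 * t - 2) (by omega)
  have hU' : ∀ x ∈ U.toList, x ≠ b ∧ x ≠ z ∧ x ≠ a := by
    intro x hx
    have := hU (mem_toList.mp hx)
    simpa using this
  set L : List (Fin n) := b :: z :: a :: U.toList with hL
  have hLnd : L.Nodup := by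
    rw [hL, List.nodup_cons, List.nodup_cons, List.nodup_cons]
    refine ⟨?_, ?_, ?_, U.nodup_toList⟩
    · simp only [List.mem_cons, not_or]
      exact ⟨h1, h2, fun h => (hU' b h).1 rfl⟩
    · simp only [List.mem_cons, not_or]
      exact ⟨h3, fun h => (hU' z h).2.1 rfl⟩
    · exact fun h => (hU' a h).2.2 rfl
  have hLlen : L.length = 2 * t + 1 := by
    rw [hL]; simp only [List.length_cons, length_toList, hUc]; omega
  refine ⟨List.formPerm L, List.isCycle_formPerm hLnd (by omega), ?_, ?_, ?_⟩
  · rw [List.support_formPerm_of_nodup L hLnd, List.toFinset_card_of_nodup hLnd, hLlen]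
    intro x e
    rw [e] at hLlen
    simp at hLlen
    omega
  · exact formPerm_next [] (a :: U.toList) b z hLnd
  · exact formPerm_next [b] (U.toList) z a hLnd

/-- Small step. -/
theorem small_step {n t : ℕ} (ht : 1 ≤ t) (hn : 2 * t + 1 ≤ n) (π : Perm (Fin n))
    (hπ : Perm.sign π = 1) (h1 : π ≠ 1) :
    ∃ c d : Perm (Fin n), (c.IsCycle ∧ c.support.card = 2 * t + 1) ∧
      (d.IsCycle ∧ d.support.card = 2 * t + 1) ∧ (c * d * π).support.card + 1 ≤ π.support.card := by
  obtain ⟨a, ha⟩ : ∃ a, a ∈ π.support := by
    by_contra hc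
    push Not at hc
    apply h1
    rw [← Perm.support_eq_empty_iff]
    exact eq_empty_of_forall_notMem hc
  have hb : π a ∈ π.support := Perm.apply_mem_support.mpr ha
  have hab : π a ≠ a := Perm.mem_support.mp ha
  obtain ⟨z, hz, hz'⟩ : ∃ z ∈ π.support, z ∉ ({a, π a} : Finset (Fin n)) := by
    by_contra hc
    push Not at hc
    have h2 := card_le_card (show π.support ⊆ {a, π a} from fun a ha => hc a ha)
    have h3 : ({a, π a} : Finset (Fin n)).card ≤ 2 := card_le_two
    have h4 := Perm.two_le_card_support_of_ne_one h1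
    have h5 : π.IsSwap := Perm.card_support_eq_two.mp (by omega)
    rw [h5.sign_eq] at hπ
    exact absurd hπ (by decide)
  rw [mem_insert, mem_singleton] at hz'
  push Not at hz'
  obtain ⟨σ, hσ, hσc, hσ1, hσ2⟩ := exists_cycle ht hn (π a) z a (Ne.symm hz'.2) hab hz'.1
  refine ⟨σ, swap (π a) z * σ⁻¹ * (swap (π a) z)⁻¹, ⟨hσ, hσc⟩, ⟨hσ.inv.conj, ?_⟩, ?_⟩
  · rw [Perm.card_support_conj, Perm.support_inv, hσc]
  · have e : σ * (swap (π a) z * σ⁻¹ * (swap (π a) z)⁻¹) = swap z a * swap (π a) z := by
      have h2 : σ * swap (π a) z * σ⁻¹ = swap z a := by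
        rw [← Equiv.swap_apply_apply σ (π a) z, hσ1, hσ2]
      rw [← h2]
      simp only [swap_inv, mul_assoc]
    rw [e]
    have hsub : (swap z a * swap (π a) z * π).support ⊆ π.support.erase a := by
      intro y hy
      rw [mem_erase]
      rw [Perm.mem_support] at hy
      constructor
      · rintro rfl
        apply hy
        rw [Perm.mul_apply, Perm.mul_apply, swap_apply_left, swap_apply_left]
      · by_contra hy'
        apply hy
        have h3 : π y = y := Perm.notMem_support.mp hy'
        have n1 : y ≠ π a := by rintro rfl; exact hy' hb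
        have n2 : y ≠ z := by rintro rfl; exact hy' hz
        have n3 : y ≠ a := by rintro rfl; exact hy' ha
        rw [Perm.mul_apply, Perm.mul_apply, h3, swap_apply_of_ne_of_ne n1 n2,
          swap_apply_of_ne_of_ne n2 n3]
    have h4 := card_le_card hsub
    rw [card_erase_of_mem ha] at h4
    have h5 : 0 < π.support.card := card_pos.mpr ⟨a, ha⟩
    omega

theorem sort_small {n t : ℕ} (ht : 1 ≤ t) (hn : 2 * t + 1 ≤ n) (m : ℕ) :
    ∀ π : Perm (Fin n), Perm.sign π = 1 → π.support.card ≤ m →
    ∃ l : List (Perm (Fin n)), l.prod = π ∧ l.length ≤ 2 * m ∧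
      ∀ c ∈ l, c.IsCycle ∧ c.support.card = 2 * t + 1 := by
  induction m with
  | zero =>
    intro π _ hm
    have : π = 1 := by
      rw [← Perm.support_eq_empty_iff, ← card_eq_zero]; omega
    exact ⟨[], by simp [this], by simp, by simp⟩
  | succ m ih =>
    intro π hπ hm
    by_cases h1 : π = 1
    · exact ⟨[], by simp [h1], by simp, by simp⟩
    · obtain ⟨c, d, hc, hd, h2⟩ := small_step ht hn π hπ h1
      have hsc : Perm.sign c = 1 := by
        rw [hc.1.sign, hc.2, pow_succ, pow_mul]; simp
      have hsd : Perm.sign d = 1 := by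
        rw [hd.1.sign, hd.2, pow_succ, pow_mul]; simp
      obtain ⟨l, hl, hlen, hall⟩ := ih (c * d * π) (by simp [hsc, hsd, hπ]) (by omega)
      refine ⟨d⁻¹ :: c⁻¹ :: l, ?_, ?_, ?_⟩
      · rw [List.prod_cons, List.prod_cons, hl]; group
      · simp only [List.length_cons]; omega
      · intro x hx
        rw [List.mem_cons, List.mem_cons] at hx
        rcases hx with rfl | rfl | hx
        · exact ⟨hd.1.inv, by rw [Perm.support_inv, hd.2]⟩
        · exact ⟨hc.1.inv, by rw [Perm.support_inv, hc.2]⟩
        · exact hall x hx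

theorem sort_all {n t : ℕ} (ht : 1 ≤ t) (hn : 2 * t + 1 ≤ n) (m : ℕ) :
    ∀ π : Perm (Fin n), Perm.sign π = 1 → π.support.card ≤ m →
    ∃ l : List (Perm (Fin n)), l.prod = π ∧ t * l.length ≤ π.support.card + 6 * t ^ 2 ∧
      ∀ c ∈ l, c.IsCycle ∧ c.support.card = 2 * t + 1 := by
  induction m with
  | zero =>
    intro π _ hm
    have : π = 1 := by
      rw [← Perm.support_eq_empty_iff, ← card_eq_zero]; omega
    exact ⟨[], by simp [this], by simp, by simp⟩
  | succ m ih =>
    intro π hπ hm
    by_cases h1 : 3 * t + 1 ≤ π.support.card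
    · obtain ⟨c, hc, hcc, h2⟩ := big_step ht π h1
      have hsc : Perm.sign c = 1 := by
        rw [hc.sign, hcc, pow_succ, pow_mul]; simp
      obtain ⟨l, hl, hlen, hall⟩ := ih (c * π) (by simp [hsc, hπ]) (by omega)
      refine ⟨c⁻¹ :: l, ?_, ?_, ?_⟩
      · rw [List.prod_cons, hl]; group
      · rw [List.length_cons, mul_add, mul_one]; omega
      · intro x hx
        rw [List.mem_cons] at hx
        rcases hx with rfl | hx
        · exact ⟨hc.inv, by rw [Perm.support_inv, hcc]⟩
        · exact hall x hx
    · obtain ⟨l, hl, hlen, hall⟩ := sort_small ht hn (3 * t) π hπ (by omega)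
      refine ⟨l, hl, ?_, hall⟩
      nlinarith

/-- Packet T5-P1. -/
theorem P1_sort {n t : ℕ} (ht : 1 ≤ t) (hn : 2 * t + 1 ≤ n) (π : Perm (Fin n))
    (hπ : Perm.sign π = 1) : ∃ l : List (Perm (Fin n)), l.prod = π ∧ t * l.length ≤ n + 8 * t ^ 2 ∧
      ∀ c ∈ l, c.IsCycle ∧ c.support.card = 2 * t + 1 := by
  obtain ⟨l, h1, h2, h3⟩ := sort_all ht hn _ π hπ le_rfl
  refine ⟨l, h1, ?_, h3⟩
  have h4 : π.support.card ≤ n := by
    have := card_le_univ π.support
    rwa [Fintype.card_fin] at this
  nlinarith

end Pool.Agent.Helper38.T5
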